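import Pool.Agent.Q61.CS.Homog

set_option autoImplicit false

namespace Pool.Agent.Results.MP_4f7796_ag.CurveThroughPoint

open MvPolynomial

/-- Let `F` be a cubic form in four variables over a finite field `K` and let `x` be a `K`-point
of the cubic surface `F = 0` at which some first derivative of `F` does not vanish (this holds at
every `K`-point when the surface is smooth). Then there are four binary forms `f 0, ..., f 3` over
`K`, of one degree `d` with `0 < d ≤ 12`, without a common zero on the projective line over an
algebraic closure, with `F (f 0, ..., f 3) = 0`, such that the resulting morphism from the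
projective line to the surface has `x` in its image. -/
theorem result {K : Type*} [Field K] [Finite K] (F : MvPolynomial (Fin 4) K)
    (hF : F.IsHomogeneous 3) (x : Fin 4 → K) (hx : x ≠ 0) (hFx : eval x F = 0)
    (hsm : ∃ i, eval x (pderiv i F) ≠ 0) :
    ∃ (d : ℕ) (f : Fin 4 → MvPolynomial (Fin 2) K), 0 < d ∧ d ≤ 12 ∧
      (∀ i, (f i).IsHomogeneous d) ∧
      (∀ p : Fin 2 → AlgebraicClosure K, p ≠ 0 → ∃ i, aeval p (f i) ≠ 0) ∧
      aeval f F = 0 ∧
      ∃ (p : Fin 2 → AlgebraicClosure K) (c : AlgebraicClosure K), p ≠ 0 ∧ c ≠ 0 ∧
        ∀ i, aeval p (f i) = c * algebraMap K (AlgebraicClosure K) (x i) :=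
  Pool.Agent.Q61.CS.main F hF x hx hFx hsm

end Pool.Agent.Results.MP_4f7796_ag.CurveThroughPoint
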